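import Pool.Agent.U445.Sh.Triple

set_option autoImplicit false

/-! Six orders of 23 points which shatter 990 triples. -/

namespace Pool.Agent.U445.Sh

open Finset

/-- the six rank functions -/
def base2 : Fin 6 → Fin 23 → ℕ :=
  ![![6, 15, 5, 8, 14, 13, 21, 0, 20, 2, 12, 18, 22, 7, 4, 1, 10, 16, 9, 17, 19, 11, 3],
    ![6, 1, 21, 18, 16, 19, 14, 12, 7, 9, 2, 17, 13, 5, 22, 11, 3, 0, 20, 15, 8, 4, 10],
    ![7, 17, 22, 4, 2, 5, 12, 15, 11, 8, 19, 1, 10, 6, 21, 14, 18, 16, 3, 0, 13, 20, 9],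
    ![21, 0, 6, 3, 16, 2, 10, 7, 11, 14, 19, 15, 9, 22, 5, 8, 20, 1, 4, 17, 12, 18, 13],
    ![22, 16, 6, 20, 0, 19, 8, 13, 15, 11, 3, 1, 9, 21, 7, 12, 5, 17, 18, 2, 14, 4, 10],
    ![4, 17, 6, 13, 18, 8, 1, 19, 2, 21, 11, 14, 3, 5, 7, 20, 10, 16, 12, 15, 0, 9, 22]]

theorem base2_inj : ∀ i, Function.Injective (base2 i) := by decide +kernel

theorem base2_lt : ∀ i x, base2 i x < 23 := by decide +kernel

set_option maxRecDepth 100000 in
theorem base2_good : Good 3 (Fin 6) 23 990 := by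
  refine good_of_chk base2 base2_inj 23 base2_lt ?_
  decide +kernel

end Pool.Agent.U445.Sh
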