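import Pool.Agent.U445.Sh.Triple

set_option autoImplicit false

/-! Six orders of 11 points which shatter 107 triples. -/

namespace Pool.Agent.U445.Sh

open Finset

/-- the six rank functions -/
def base : Fin 6 → Fin 11 → ℕ :=
  ![![3, 8, 2, 4, 7, 6, 10, 0, 9, 1, 5],
    ![2, 0, 10, 9, 7, 8, 6, 5, 3, 4, 1],
    ![3, 8, 10, 2, 0, 1, 5, 7, 6, 4, 9],
    ![10, 0, 3, 1, 8, 2, 5, 4, 6, 7, 9],
    ![10, 7, 2, 8, 0, 9, 3, 5, 6, 4, 1],
    ![2, 7, 3, 6, 8, 4, 1, 9, 0, 10, 5]]

theorem base_inj : ∀ i, Function.Injective (base i) := by decide +kernel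

theorem base_lt : ∀ i x, base i x < 11 := by decide +kernel

set_option maxRecDepth 100000 in
theorem base_good : Good 3 (Fin 6) 11 107 := by
  refine good_of_chk base base_inj 11 base_lt ?_
  decide +kernel

end Pool.Agent.U445.Sh
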