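import Mathlib

set_option autoImplicit false

/-! Families of rank functions which shatter finite sets; products (lexicographic orders). -/

namespace Pool.Agent.U445.Sh

open Finset

/-- the rank functions `p i` shatter `X` -/
def Sh {ι α : Type*} (p : ι → α → ℕ) (X : Finset α) : Prop :=
  ∀ f : α → ℕ, Set.InjOn f X → ∃ i, ∀ x ∈ X, ∀ y ∈ X, (p i x < p i y ↔ f x < f y)

open Classical in
/-- the shattered `k`-sets -/
noncomputable def sets {ι α : Type*} [Fintype α] (k : ℕ) (p : ι → α → ℕ) : Finset (Finset α) :=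
  (powersetCard k (univ : Finset α)).filter (Sh p)

lemma mem_sets {ι α : Type*} [Fintype α] {k : ℕ} {p : ι → α → ℕ} {X : Finset α} :
    X ∈ sets k p ↔ X.card = k ∧ Sh p X := by
  unfold sets
  simp [mem_powersetCard]

/-- lexicographic product -/
def lex {ι α β : Type*} (N : ℕ) (p : ι → α → ℕ) (q : ι → β → ℕ) : ι → α × β → ℕ :=
  fun i x => p i x.1 * N + q i x.2

lemma lex_lt {ι α β : Type*} {N : ℕ} {p : ι → α → ℕ} {q : ι → β → ℕ} (hq : ∀ i x, q i x < N)
    (i : ι) (x y : α × β) (h : p i x.1 ≠ p i y.1) :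
    lex N p q i x < lex N p q i y ↔ p i x.1 < p i y.1 := by
  unfold lex
  have h1 := hq i x.2
  have h2 := hq i y.2
  constructor
  · intro h3
    by_contra h4
    have h5 : p i y.1 + 1 ≤ p i x.1 := by omega
    have : (p i y.1 + 1) * N ≤ p i x.1 * N := Nat.mul_le_mul_right _ h5
    have e : (p i y.1 + 1) * N = p i y.1 * N + N := by ring
    omega
  · intro h3
    have h5 : p i x.1 + 1 ≤ p i y.1 := h3
    have : (p i x.1 + 1) * N ≤ p i y.1 * N := Nat.mul_le_mul_right _ h5
    have e : (p i x.1 + 1) * N = p i x.1 * N + N := by ring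
    omega

lemma sh_transversal {ι α β : Type*} [DecidableEq α] {N : ℕ} {p : ι → α → ℕ} {q : ι → β → ℕ}
    (hp : ∀ i, Function.Injective (p i)) (hq : ∀ i x, q i x < N) {X : Finset (α × β)}
    (hX : Set.InjOn Prod.fst (X : Set (α × β))) (hs : Sh p (X.image Prod.fst)) :
    Sh (lex N p q) X := by
  classical
  intro f hf
  rcases X.eq_empty_or_nonempty with hne | ⟨z0, hz0⟩
  · subst hne
    obtain ⟨i, -⟩ := hs (fun _ => 0) (by simp)
    exact ⟨i, by simp⟩
  · have : Nonempty (α × β) := ⟨z0⟩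
    let g : α → α × β := Function.invFunOn Prod.fst (X : Set (α × β))
    have hg : ∀ x ∈ X, g x.1 = x := by
      intro x hx
      have hex : ∃ a ∈ (X : Set (α × β)), a.1 = x.1 := ⟨x, hx, rfl⟩
      exact hX (Function.invFunOn_mem hex) hx (Function.invFunOn_eq hex)
    obtain ⟨i, hi⟩ := hs (fun a => f (g a)) (by
      intro a ha b hb hab
      rw [coe_image] at ha hb
      obtain ⟨x, hx, rfl⟩ := ha
      obtain ⟨y, hy, rfl⟩ := hb
      simp only [hg x hx, hg y hy] at hab
      rw [hf hx hy hab])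
    refine ⟨i, fun x hx y hy => ?_⟩
    by_cases hxy : x = y
    · subst hxy; simp
    · have h1 : x.1 ≠ y.1 := fun h => hxy (hX hx hy h)
      rw [lex_lt hq i x y (fun h => h1 (hp i h))]
      rw [hi x.1 (mem_image_of_mem _ hx) y.1 (mem_image_of_mem _ hy)]
      simp only [hg x hx, hg y hy]

lemma sh_inner {ι α β : Type*} {N : ℕ} {p : ι → α → ℕ} {q : ι → β → ℕ} (a : α) {Y : Finset β}
    (hs : Sh q Y) : Sh (lex N p q) (Y.map ⟨fun b => (a, b), fun _ _ h => (Prod.mk.inj h).2⟩) := by
  intro f hf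
  obtain ⟨i, hi⟩ := hs (fun b => f (a, b)) (by
    intro b hb c hc hbc
    have := hf (by simpa using hb : ((a, b) : α × β) ∈ _) (by simpa using hc) hbc
    exact (Prod.mk.inj this).2)
  refine ⟨i, fun x hx y hy => ?_⟩
  rw [mem_map] at hx hy
  obtain ⟨b, hb, rfl⟩ := hx
  obtain ⟨c, hc, rfl⟩ := hy
  have := hi b hb c hc
  simp only [Function.Embedding.coeFn_mk, lex] at this ⊢
  rw [← this]
  omega

/-- the transversal set of a section -/
def sec {α β : Type*} [DecidableEq α] [DecidableEq β] (X : Finset α) (g : ∀ a ∈ X, β) :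
    Finset (α × β) :=
  X.attach.image (fun a => (a.1, g a.1 a.2))

lemma mem_sec {α β : Type*} [DecidableEq α] [DecidableEq β] {X : Finset α} {g : ∀ a ∈ X, β}
    {z : α × β} : z ∈ sec X g ↔ ∃ h : z.1 ∈ X, g z.1 h = z.2 := by
  unfold sec
  rw [mem_image]
  constructor
  · rintro ⟨a, -, rfl⟩
    exact ⟨a.2, rfl⟩
  · rintro ⟨h, e⟩
    exact ⟨⟨z.1, h⟩, mem_attach _ _, by rw [e]⟩

lemma sec_injOn {α β : Type*} [DecidableEq α] [DecidableEq β] (X : Finset α) (g : ∀ a ∈ X, β) :
    Set.InjOn Prod.fst (sec X g : Set (α × β)) := by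
  rintro ⟨a, b⟩ hx ⟨c, d⟩ hy h
  rw [mem_coe, mem_sec] at hx hy
  obtain ⟨h1, e1⟩ := hx
  obtain ⟨h2, e2⟩ := hy
  simp only at h e1 e2
  subst h
  rw [← e1, ← e2]

lemma sec_fst {α β : Type*} [DecidableEq α] [DecidableEq β] (X : Finset α) (g : ∀ a ∈ X, β) :
    (sec X g).image Prod.fst = X := by
  ext a
  rw [mem_image]
  constructor
  · rintro ⟨z, hz, rfl⟩
    exact (mem_sec.1 hz).choose
  · intro ha
    exact ⟨(a, g a ha), mem_sec.2 ⟨ha, rfl⟩, rfl⟩

lemma sec_card {α β : Type*} [DecidableEq α] [DecidableEq β] (X : Finset α) (g : ∀ a ∈ X, β) :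
    (sec X g).card = X.card := by
  conv_rhs => rw [← sec_fst X g]
  rw [card_image_of_injOn (sec_injOn X g)]

/-- the count of the shattered sets in a product -/
theorem card_lex {ι α β : Type*} [Fintype α] [Fintype β] [DecidableEq α] [DecidableEq β]
    {N k : ℕ} (hk : 2 ≤ k) {p : ι → α → ℕ} {q : ι → β → ℕ}
    (hp : ∀ i, Function.Injective (p i)) (hq : ∀ i x, q i x < N) :
    (sets k p).card * Fintype.card β ^ k + Fintype.card α * (sets k q).card ≤
      (sets k (lex N p q)).card := by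
  classical
  -- transversal sets
  let A : Finset (Σ X : Finset α, (∀ a ∈ X, β)) :=
    (sets k p).sigma (fun X => X.pi (fun _ => (univ : Finset β)))
  let S1 : Finset (Finset (α × β)) := A.image (fun z => sec z.1 z.2)
  let S2 : Finset (Finset (α × β)) := ((univ : Finset α) ×ˢ (sets k q)).image
    (fun z => z.2.map ⟨fun b => (z.1, b), fun _ _ h => (Prod.mk.inj h).2⟩)
  have h1 : S1.card = (sets k p).card * Fintype.card β ^ k := by
    rw [card_image_of_injOn]
    · rw [card_sigma]
      rw [sum_congr rfl (g := fun _ => Fintype.card β ^ k)]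
      · simp
      · intro X hX
        rw [card_pi, prod_const, (mem_sets.1 hX).1]
        rfl
    · rintro ⟨X, g⟩ - ⟨Y, h⟩ - e
      simp only at e
      have e1 : X = Y := by
        rw [← sec_fst X g, ← sec_fst Y h, e]
      subst e1
      congr 1
      funext a ha
      have : (a, g a ha) ∈ sec X h := by
        rw [← e]
        exact mem_sec.2 ⟨ha, rfl⟩
      obtain ⟨h', e'⟩ := mem_sec.1 this
      exact e'.symm
  have h2 : S2.card = Fintype.card α * (sets k q).card := by
    rw [card_image_of_injOn]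
    · rw [card_product]
      rfl
    · rintro ⟨a, Y⟩ hY ⟨b, Z⟩ hZ e
      simp only [coe_product, Set.mem_prod, mem_coe, mem_sets] at hY hZ
      simp only at e
      have hne : Y.Nonempty := by
        rw [← card_pos, hY.2.1]; omega
      obtain ⟨y, hy⟩ := hne
      have h3 : (a, y) ∈ Z.map ⟨fun c => (b, c), fun _ _ h => (Prod.mk.inj h).2⟩ := by
        rw [← e]
        exact mem_map_of_mem _ hy
      rw [mem_map] at h3
      obtain ⟨c, -, hc⟩ := h3
      simp only [Function.Embedding.coeFn_mk, Prod.mk.injEq] at hc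
      obtain ⟨rfl, -⟩ := hc
      have := map_injective _ e
      rw [this]
  have hd : Disjoint S1 S2 := by
    rw [disjoint_left]
    intro X hX1 hX2
    obtain ⟨⟨Y, g⟩, hY, rfl⟩ := mem_image.1 hX1
    obtain ⟨⟨a, Z⟩, hZ, e⟩ := mem_image.1 hX2
    simp only at e
    have hc : Y.card = k := (mem_sets.1 (mem_sigma.1 hY).1).1
    have : (sec Y g).image Prod.fst ⊆ {a} := by
      rw [← e]
      intro b hb
      rw [mem_image] at hb
      obtain ⟨z, hz, rfl⟩ := hb
      rw [mem_map] at hz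
      obtain ⟨c, -, rfl⟩ := hz
      simp
    rw [sec_fst] at this
    have := card_le_card this
    rw [card_singleton, hc] at this
    omega
  have hsub : S1 ∪ S2 ⊆ sets k (lex N p q) := by
    intro X hX
    rw [mem_union] at hX
    rcases hX with hX | hX
    · obtain ⟨⟨Y, g⟩, hY, rfl⟩ := mem_image.1 hX
      have hY' := mem_sets.1 (mem_sigma.1 hY).1
      rw [mem_sets]
      refine ⟨by simp only [sec_card]; exact hY'.1, sh_transversal hp hq (sec_injOn Y g) ?_⟩
      simp only [sec_fst]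
      exact hY'.2
    · obtain ⟨⟨a, Z⟩, hZ, rfl⟩ := mem_image.1 hX
      have hZ' := mem_sets.1 (mem_product.1 hZ).2
      rw [mem_sets]
      refine ⟨by simp only [card_map]; exact hZ'.1, sh_inner a hZ'.2⟩
  calc _ = S1.card + S2.card := by rw [h1, h2]
    _ = (S1 ∪ S2).card := (card_union_of_disjoint hd).symm
    _ ≤ _ := card_le_card hsub

/-- transport along an equivalence -/
theorem card_equiv {ι α β : Type*} [Fintype α] [Fintype β] [DecidableEq α] [DecidableEq β]
    {k : ℕ} (e : α ≃ β) (p : ι → β → ℕ) :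
    (sets k p).card ≤ (sets k (fun i x => p i (e x))).card := by
  classical
  apply card_le_card_of_injOn (fun X => X.map e.symm.toEmbedding)
  · intro X hX
    rw [mem_coe, mem_sets] at hX ⊢
    refine ⟨by rw [card_map]; exact hX.1, ?_⟩
    intro f hf
    obtain ⟨i, hi⟩ := hX.2 (fun b => f (e.symm b)) (by
      intro b hb c hc hbc
      have := hf (mem_map_of_mem e.symm.toEmbedding hb) (mem_map_of_mem e.symm.toEmbedding hc) hbc
      exact e.symm.injective this)
    refine ⟨i, fun x hx y hy => ?_⟩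
    rw [mem_map] at hx hy
    obtain ⟨b, hb, rfl⟩ := hx
    obtain ⟨c, hc, rfl⟩ := hy
    simpa using hi b hb c hc
  · intro X _ Y _ h
    exact map_injective _ h

/-- `T` shattered `k`-sets on `n` points, with families indexed by `ι` -/
def Good (k : ℕ) (ι : Type) (n T : ℕ) : Prop :=
  ∃ (q : ι → Fin n → ℕ) (N : ℕ), (∀ i, Function.Injective (q i)) ∧ (∀ i x, q i x < N) ∧
    T ≤ (sets k q).card

lemma aux {n a b c d : ℕ} (hc : c < n) (hd : d < n) (h : a * n + c = b * n + d) :
    a = b := by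
  have hn : 0 < n := by omega
  have h1 : (a * n + c) / n = a := by
    rw [Nat.mul_comm, Nat.mul_add_div hn, Nat.div_eq_of_lt hc, Nat.add_zero]
  have h2 : (b * n + d) / n = b := by
    rw [Nat.mul_comm, Nat.mul_add_div hn, Nat.div_eq_of_lt hd, Nat.add_zero]
  rw [← h1, h, h2]

theorem Good.mul {k : ℕ} (hk : 2 ≤ k) {ι : Type} {m n s T : ℕ}
    (h1 : Good k ι m s) (h2 : Good k ι n T) : Good k ι (m * n) (s * n ^ k + m * T) := by
  obtain ⟨p, M, hp1, hp2, hp4⟩ := h1
  obtain ⟨q, N, hq1, hq2, hq4⟩ := h2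
  refine ⟨fun i x => lex N p q i (finProdFinEquiv.symm x), M * N, ?_, ?_, ?_⟩
  · intro i x y h
    apply finProdFinEquiv.symm.injective
    have ha := hq2 i (finProdFinEquiv.symm x).2
    have hb := hq2 i (finProdFinEquiv.symm y).2
    simp only [lex] at h
    have e1 : p i (finProdFinEquiv.symm x).1 = p i (finProdFinEquiv.symm y).1 :=
      aux ha hb h
    rw [e1] at h
    have e2 := Nat.add_left_cancel h
    exact Prod.ext (hp1 i e1) (hq1 i e2)
  · intro i x
    have ha := hq2 i (finProdFinEquiv.symm x).2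
    have hb := hp2 i (finProdFinEquiv.symm x).1
    simp only [lex]
    have h5 : p i (finProdFinEquiv.symm x).1 + 1 ≤ M := hb
    have : (p i (finProdFinEquiv.symm x).1 + 1) * N ≤ M * N := Nat.mul_le_mul_right _ h5
    have e : (p i (finProdFinEquiv.symm x).1 + 1) * N = p i (finProdFinEquiv.symm x).1 * N + N := by
      ring
    omega
  · refine le_trans ?_ (card_equiv finProdFinEquiv.symm (lex N p q))
    refine le_trans ?_ (card_lex hk hp1 hq2)
    rw [Fintype.card_fin, Fintype.card_fin]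
    gcongr

theorem Good.pow {k : ℕ} (hk : 2 ≤ k) {ι : Type} {m s : ℕ} (h : Good k ι m s)
    (j : ℕ) : ∃ T, Good k ι (m ^ (j + 1)) T ∧
      (T : ℤ) * ((m : ℤ) ^ k - m) = s * (((m : ℤ) ^ (j + 1)) ^ k - (m : ℤ) ^ (j + 1)) := by
  induction j with
  | zero => exact ⟨s, by simpa using h, by simp⟩
  | succ j ih =>
    obtain ⟨T, hT, e⟩ := ih
    refine ⟨s * (m ^ (j + 1)) ^ k + m * T, ?_, ?_⟩
    · rw [pow_succ' m (j + 1)]
      exact Good.mul hk h hT
    · push_cast
      have : (m : ℤ) ^ (j + 1 + 1) = m * (m : ℤ) ^ (j + 1) := pow_succ' _ _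
      rw [this, mul_pow]
      linear_combination (m : ℤ) * e

/-- removing a point -/
theorem Good.pred {k : ℕ} {ι : Type} {n T : ℕ} (hk : k ≤ n) (h : Good k ι (n + 1) T) :
    ∃ T', Good k ι n T' ∧ T * (n + 1 - k) ≤ T' * (n + 1) := by
  classical
  obtain ⟨q, N, hq1, hq2, hq4⟩ := h
  let c : Fin (n + 1) → ℕ := fun v => ((sets k q).filter (fun X => v ∉ X)).card
  have hsum : ∑ v, c v = (sets k q).card * (n + 1 - k) := by
    simp only [c, card_filter]
    rw [sum_comm]
    rw [sum_congr rfl (g := fun _ => n + 1 - k)]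
    · simp
    · intro X hX
      rw [← card_filter]
      have : (univ.filter (fun v => v ∉ X)) = Xᶜ := by
        ext v; simp
      rw [this, card_compl, Fintype.card_fin, (mem_sets.1 hX).1]
  obtain ⟨v, -, hv⟩ : ∃ v ∈ (univ : Finset (Fin (n + 1))), (T * (n + 1 - k)) ≤ c v * (n + 1) := by
    by_contra hcon
    push Not at hcon
    have : ∑ v, c v * (n + 1) < ∑ _v : Fin (n + 1), T * (n + 1 - k) :=
      sum_lt_sum_of_nonempty ⟨0, mem_univ _⟩ hcon
    rw [← sum_mul, hsum, sum_const, card_univ, Fintype.card_fin, smul_eq_mul] at this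
    have h2 : T * (n + 1 - k) ≤ (sets k q).card * (n + 1 - k) := Nat.mul_le_mul_right _ hq4
    nlinarith
  refine ⟨c v, ⟨fun i x => q i (v.succAbove x), N, ?_, ?_, ?_⟩, hv⟩
  · intro i x y h
    exact Fin.succAbove_right_injective (hq1 i h)
  · intro i x; exact hq2 i _
  · simp only [c]
    apply card_le_card_of_surjOn (fun X => X.map (Fin.succAboveEmb v))
    intro X hX
    rw [mem_coe, mem_filter, mem_sets] at hX
    obtain ⟨⟨h1, h2⟩, h3⟩ := hX
    refine ⟨univ.filter (fun x => v.succAbove x ∈ X), ?_, ?_⟩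
    · have hmap : (univ.filter (fun x => v.succAbove x ∈ X)).map
          (Fin.succAboveEmb v) = X := by
        ext y
        rw [mem_map]
        constructor
        · rintro ⟨x, hx, rfl⟩
          simpa using hx
        · intro hy
          have hne : y ≠ v := fun h => h3 (h ▸ hy)
          obtain ⟨x, hx⟩ := Fin.exists_succAbove_eq hne
          refine ⟨x, ?_, by simpa using hx⟩
          simp [hx, hy]
      rw [mem_coe, mem_sets]
      refine ⟨by rw [← h1, ← hmap, card_map, hmap], ?_⟩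
      intro f hf
      -- extend f
      obtain ⟨i, hi⟩ := h2 (fun y => if h : ∃ x, v.succAbove x = y then f h.choose else 0) (by
        intro a ha b hb hab
        rw [← hmap] at ha hb
        rw [mem_coe, mem_map] at ha hb
        obtain ⟨x, hx, rfl⟩ := ha
        obtain ⟨y, hy, rfl⟩ := hb
        have ex : ∃ x', v.succAbove x' = (Fin.succAboveEmb v) x := ⟨x, rfl⟩
        have ey : ∃ x', v.succAbove x' = (Fin.succAboveEmb v) y := ⟨y, rfl⟩
        have ex' : ex.choose = x := Fin.succAbove_right_injective ex.choose_spec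
        have ey' : ey.choose = y := Fin.succAbove_right_injective ey.choose_spec
        simp only at hab
        rw [dif_pos ex, dif_pos ey, ex', ey'] at hab
        rw [hf hx hy hab])
      refine ⟨i, fun x hx y hy => ?_⟩
      have ex : ∃ x', v.succAbove x' = v.succAbove x := ⟨x, rfl⟩
      have ey : ∃ x', v.succAbove x' = v.succAbove y := ⟨y, rfl⟩
      have ex' : ex.choose = x := Fin.succAbove_right_injective ex.choose_spec
      have ey' : ey.choose = y := Fin.succAbove_right_injective ey.choose_spec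
      have := hi (v.succAbove x) (by simpa using hx) (v.succAbove y) (by simpa using hy)
      rw [dif_pos ex, dif_pos ey, ex', ey'] at this
      exact this
    · ext y
      rw [mem_map]
      constructor
      · rintro ⟨x, hx, rfl⟩
        simpa using hx
      · intro hy
        have hne : y ≠ v := fun h => h3 (h ▸ hy)
        obtain ⟨x, hx⟩ := Fin.exists_succAbove_eq hne
        refine ⟨x, ?_, by simpa using hx⟩
        simp [hx, hy]

/-- proportion at least `c` -/
def Rat (k : ℕ) (ι : Type) (n : ℕ) (c : ℝ) : Prop :=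
  ∃ T : ℕ, Good k ι n T ∧ c * (n.choose k : ℝ) ≤ T

theorem Rat.pred {k : ℕ} {ι : Type} {n : ℕ} {c : ℝ} (hk : k ≤ n) (h : Rat k ι (n + 1) c) :
    Rat k ι n c := by
  obtain ⟨T, hT, hc⟩ := h
  obtain ⟨T', hT', e⟩ := Good.pred hk hT
  refine ⟨T', hT', ?_⟩
  have h1 : (n + 1).choose k * (n + 1 - k) = n.choose k * (n + 1) := by
    rcases Nat.eq_zero_or_pos k with h0 | h0
    · subst h0; simp
    · obtain ⟨k', rfl⟩ : ∃ k', k = k' + 1 := ⟨k - 1, by omega⟩
      have h3 := Nat.choose_mul_succ_eq n (k' + 1)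
      exact h3.symm
  have h2 : (((n + 1).choose k : ℕ) : ℝ) * ((n + 1 - k : ℕ) : ℝ) = (n.choose k : ℝ) * (n + 1) := by
    exact_mod_cast congrArg (Nat.cast (R := ℝ)) h1
  have h3 : (T : ℝ) * ((n + 1 - k : ℕ) : ℝ) ≤ T' * (n + 1) := by exact_mod_cast e
  have h4 : (0 : ℝ) ≤ ((n + 1 - k : ℕ) : ℝ) := Nat.cast_nonneg _
  have h5 := mul_le_mul_of_nonneg_right hc h4
  have h6 : (0 : ℝ) < (n : ℝ) + 1 := by positivity
  have h7 : c * (n.choose k : ℝ) * (n + 1) ≤ T' * (n + 1) := by
    calc c * (n.choose k : ℝ) * (n + 1) = c * ((n + 1).choose k : ℝ) * ((n + 1 - k : ℕ) : ℝ) := by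
          rw [mul_assoc, ← h2]; ring
      _ ≤ _ := le_trans h5 h3
  exact le_of_mul_le_mul_right h7 h6

theorem Rat.of_le {k : ℕ} {ι : Type} {n n' : ℕ} {c : ℝ} (hk : k ≤ n) (hn : n ≤ n')
    (h : Rat k ι n' c) : Rat k ι n c := by
  induction n' , hn using Nat.le_induction with
  | base => exact h
  | succ n' h1 ih => exact ih (h.pred (le_trans hk h1))

/-- iterated products -/
theorem Good.all {k : ℕ} (hk : 2 ≤ k) {ι : Type} {m s : ℕ} (hm : 2 ≤ m) (h : Good k ι m s)
    {n : ℕ} (hn : k ≤ n) :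
    Rat k ι n ((s : ℝ) * k.factorial / ((m : ℝ) ^ k - m)) := by
  obtain ⟨j, hj⟩ : ∃ j, n ≤ m ^ (j + 1) := by
    refine ⟨n, le_trans (Nat.lt_pow_self (by omega : 1 < m)).le (Nat.pow_le_pow_right (by omega) (by omega))⟩
  apply Rat.of_le hn hj
  obtain ⟨T, hT, e⟩ := Good.pow hk h j
  refine ⟨T, hT, ?_⟩
  have e' : (T : ℝ) * ((m : ℝ) ^ k - m) = s * (((m : ℝ) ^ (j + 1)) ^ k - (m : ℝ) ^ (j + 1)) := by
    exact_mod_cast e
  have hm' : (2 : ℝ) ≤ m := by exact_mod_cast hm
  have hpos : (0 : ℝ) < (m : ℝ) ^ k - m := by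
    have : (m : ℝ) ^ 2 ≤ (m : ℝ) ^ k := pow_le_pow_right₀ (by linarith) hk
    nlinarith
  rw [div_mul_eq_mul_div, div_le_iff₀ hpos, e', mul_assoc]
  apply mul_le_mul_of_nonneg_left _ (Nat.cast_nonneg s)
  -- k! choose = descFactorial
  set M : ℕ := m ^ (j + 1) with hM
  have hM1 : 1 ≤ M := Nat.one_le_pow _ _ (by omega)
  have h1 : k.factorial * M.choose k = M.descFactorial k := (Nat.descFactorial_eq_factorial_mul_choose M k).symm
  have h2 : M.descFactorial k + M ≤ M ^ k := by
    obtain ⟨k', rfl⟩ : ∃ k', k = k' + 2 := ⟨k - 2, by omega⟩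
    have h3 : M.descFactorial (k' + 2) ≤ (M - 1) * M ^ (k' + 1) := by
      have ha : M.descFactorial (k' + 2) = (M - (k' + 1)) * M.descFactorial (k' + 1) := rfl
      rw [ha]
      exact Nat.mul_le_mul (by omega) (Nat.descFactorial_le_pow _ _)
    have h4 : M ≤ M ^ (k' + 1) := Nat.le_self_pow (by omega) M
    have h5 : (M - 1) * M ^ (k' + 1) + M ^ (k' + 1) = M ^ (k' + 2) := by
      obtain ⟨r, hr⟩ : ∃ r, M = r + 1 := ⟨M - 1, by omega⟩
      rw [hr]; simp only [Nat.add_sub_cancel]; ring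
    omega
  have h3 : ((k.factorial * M.choose k : ℕ) : ℝ) + M ≤ (M : ℝ) ^ k := by
    rw [h1]; exact_mod_cast h2
  have h4 : ((m : ℝ) ^ (j + 1)) = (M : ℝ) := by rw [hM]; push_cast; rfl
  rw [h4]
  push_cast at h3
  linarith

end Pool.Agent.U445.Sh
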