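import Pool.Agent.U445.Sh.Core

set_option autoImplicit false

/-! Checking shattered triples; families of permutations from rank functions. -/

namespace Pool.Agent.U445.Sh

open Finset

lemma sh_triple {ι α : Type*} [DecidableEq α] {p : ι → α → ℕ} (hp : ∀ i, Function.Injective (p i))
    {a b c : α} (hab : a ≠ b) (hbc : b ≠ c) (hac : a ≠ c)
    (h : ∀ u v w : Bool, (u = v → w = u) →
      ∃ i, decide (p i a < p i b) = u ∧ decide (p i b < p i c) = v ∧ decide (p i a < p i c) = w) :
    Sh p {a, b, c} := by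
  intro f hf
  have fab : f a ≠ f b := fun e => hab (hf (by simp) (by simp) e)
  have fbc : f b ≠ f c := fun e => hbc (hf (by simp) (by simp) e)
  have fac : f a ≠ f c := fun e => hac (hf (by simp) (by simp) e)
  obtain ⟨i, h1, h2, h3⟩ := h (decide (f a < f b)) (decide (f b < f c)) (decide (f a < f c)) (by
    intro e
    rw [decide_eq_decide] at e ⊢
    omega)
  rw [decide_eq_decide] at h1 h2 h3
  have pab : p i a ≠ p i b := fun e => hab (hp i e)
  have pbc : p i b ≠ p i c := fun e => hbc (hp i e)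
  have pac : p i a ≠ p i c := fun e => hac (hp i e)
  refine ⟨i, fun x hx y hy => ?_⟩
  simp only [mem_insert, mem_singleton] at hx hy
  rcases hx with rfl | rfl | rfl <;> rcases hy with rfl | rfl | rfl <;> first | omega | simp

/-- the Boolean check of a triple -/
def chk {n : ℕ} {ι : Type} [Fintype ι] (p : ι → Fin n → ℕ) (a b c : Fin n) : Bool :=
  decide (∀ u v w : Bool, (u = v → w = u) →
      ∃ i, decide (p i a < p i b) = u ∧ decide (p i b < p i c) = v ∧ decide (p i a < p i c) = w)

theorem good_of_chk {n s : ℕ} {ι : Type} [Fintype ι] (p : ι → Fin n → ℕ)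
    (hp : ∀ i, Function.Injective (p i)) (N : ℕ) (hN : ∀ i x, p i x < N)
    (h : s ≤ ((univ : Finset (Fin n × Fin n × Fin n)).filter
      (fun t => t.1 < t.2.1 ∧ t.2.1 < t.2.2 ∧ chk p t.1 t.2.1 t.2.2 = true)).card) :
    Good 3 ι n s := by
  classical
  refine ⟨p, N, hp, hN, le_trans h ?_⟩
  apply card_le_card_of_injOn (fun t => {t.1, t.2.1, t.2.2})
  · rintro ⟨a, b, c⟩ ht
    rw [mem_coe, mem_filter] at ht
    obtain ⟨-, h1, h2, h3⟩ := ht
    simp only at h1 h2 h3
    rw [mem_coe, mem_sets]
    have hac := lt_trans h1 h2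
    refine ⟨card_eq_three.2 ⟨a, b, c, h1.ne, hac.ne, h2.ne, rfl⟩, ?_⟩
    exact sh_triple hp h1.ne h2.ne hac.ne (of_decide_eq_true h3)
  · rintro ⟨a, b, c⟩ ht ⟨a', b', c'⟩ ht' e
    rw [mem_coe, mem_filter] at ht ht'
    obtain ⟨-, h1, h2, -⟩ := ht
    obtain ⟨-, h1', h2', -⟩ := ht'
    simp only at h1 h2 h1' h2' e
    have ea : a ∈ ({a', b', c'} : Finset (Fin n)) := by rw [← e]; simp
    have eb : b ∈ ({a', b', c'} : Finset (Fin n)) := by rw [← e]; simp
    have ec : c ∈ ({a', b', c'} : Finset (Fin n)) := by rw [← e]; simp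
    have ea' : a' ∈ ({a, b, c} : Finset (Fin n)) := by rw [e]; simp
    have eb' : b' ∈ ({a, b, c} : Finset (Fin n)) := by rw [e]; simp
    have ec' : c' ∈ ({a, b, c} : Finset (Fin n)) := by rw [e]; simp
    simp only [mem_insert, mem_singleton] at ea eb ec ea' eb' ec'
    have : a = a' ∧ b = b' ∧ c = c' := by
      refine ⟨?_, ?_, ?_⟩ <;> omega
    obtain ⟨rfl, rfl, rfl⟩ := this
    rfl

/-- the family `R` of permutations of `[n]` shatters `X`: the permutation `P` is the linear order
`P 0, P 1, …`, in which `x` comes before `y` if `P⁻¹ x < P⁻¹ y`, and every linear order of `X` is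
given by an injective function `f` -/
def Shatters {n : ℕ} (R : Finset (Equiv.Perm (Fin n))) (X : Finset (Fin n)) : Prop :=
  ∀ f : Fin n → ℕ, Set.InjOn f X → ∃ P ∈ R, ∀ x ∈ X, ∀ y ∈ X, (P.symm x < P.symm y ↔ f x < f y)

open Classical in
/-- the number of shattered `k`-sets -/
noncomputable def number {n : ℕ} (k : ℕ) (R : Finset (Equiv.Perm (Fin n))) : ℕ :=
  ((powersetCard k (univ : Finset (Fin n))).filter (Shatters R)).card

/-- `F_k(n,m)` -/
noncomputable def F (k n m : ℕ) : ℝ :=
  sSup {x : ℝ | ∃ R : Finset (Equiv.Perm (Fin n)), R.card = m ∧ x = (number k R : ℝ) / n.choose k}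

/-- a permutation with the same order as an injective rank function -/
lemma exists_perm {n : ℕ} (q : Fin n → ℕ) (hq : Function.Injective q) :
    ∃ P : Equiv.Perm (Fin n), ∀ x y, P.symm x < P.symm y ↔ q x < q y := by
  classical
  have hc : (univ.image q).card = n := by
    rw [card_image_of_injective _ hq, card_univ, Fintype.card_fin]
  let o := (univ.image q).orderIsoOfFin hc
  let g : Fin n → (univ.image q) := fun x => ⟨q x, mem_image_of_mem q (mem_univ x)⟩
  have hg : Function.Bijective g := by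
    rw [Fintype.bijective_iff_injective_and_card]
    refine ⟨fun x y h => hq (congrArg Subtype.val h), ?_⟩
    rw [Fintype.card_coe, hc, Fintype.card_fin]
  refine ⟨((Equiv.ofBijective g hg).trans o.symm.toEquiv).symm, fun x y => ?_⟩
  have : ∀ z, (((Equiv.ofBijective g hg).trans o.symm.toEquiv).symm).symm z = o.symm (g z) := by
    intro z; rfl
  rw [this, this, OrderIso.lt_iff_lt]
  exact Iff.rfl

theorem Good.perm {k n T : ℕ} {ι : Type} [Fintype ι] (hι : Fintype.card ι = k.factorial)
    (hk : k ≤ n) (h : Good k ι n T) :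
    ∃ R : Finset (Equiv.Perm (Fin n)), R.card = k.factorial ∧ T ≤ number k R := by
  classical
  obtain ⟨q, N, hq1, -, hq3⟩ := h
  choose P hP using fun i => exists_perm (q i) (hq1 i)
  have h1 : (univ.image P).card ≤ k.factorial := by
    rw [← hι]; exact card_image_le
  have h2 : k.factorial ≤ Fintype.card (Equiv.Perm (Fin n)) := by
    rw [Fintype.card_perm, Fintype.card_fin]
    exact Nat.factorial_le hk
  obtain ⟨R, hR1, hR2⟩ := exists_superset_card_eq h1 h2
  refine ⟨R, hR2, le_trans hq3 (card_le_card ?_)⟩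
  intro X hX
  rw [mem_sets] at hX
  rw [mem_filter, mem_powersetCard]
  refine ⟨⟨subset_univ _, hX.1⟩, fun f hf => ?_⟩
  obtain ⟨i, hi⟩ := hX.2 f hf
  refine ⟨P i, hR1 (mem_image_of_mem _ (mem_univ i)), fun x hx y hy => ?_⟩
  rw [hP i x y]
  exact hi x hx y hy

lemma number_le {k n : ℕ} (R : Finset (Equiv.Perm (Fin n))) : number k R ≤ n.choose k := by
  classical
  unfold number
  refine le_trans (card_filter_le _ _) ?_
  rw [card_powersetCard, card_univ, Fintype.card_fin]

lemma bdd (k n m : ℕ) : BddAbove {x : ℝ | ∃ R : Finset (Equiv.Perm (Fin n)),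
    R.card = m ∧ x = (number k R : ℝ) / n.choose k} := by
  refine ⟨1, ?_⟩
  rintro x ⟨R, -, rfl⟩
  apply div_le_one_of_le₀ _ (Nat.cast_nonneg _)
  exact_mod_cast number_le R

theorem Rat.le_F {k n : ℕ} {ι : Type} [Fintype ι] (hι : Fintype.card ι = k.factorial)
    (hk : k ≤ n) {c : ℝ} (h : Rat k ι n c) : c ≤ F k n k.factorial := by
  obtain ⟨T, hT, hc⟩ := h
  obtain ⟨R, hR1, hR2⟩ := hT.perm hι hk
  have hpos : (0 : ℝ) < n.choose k := by exact_mod_cast Nat.choose_pos hk
  have h1 : c ≤ (number k R : ℝ) / n.choose k := by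
    rw [le_div_iff₀ hpos]
    refine le_trans hc ?_
    exact_mod_cast hR2
  exact le_trans h1 (le_csSup (bdd k n _) ⟨R, hR1, rfl⟩)

/-- from permutations to rank functions -/
theorem good_of_perm {k m : ℕ} (R : Finset (Equiv.Perm (Fin m))) :
    Good k R m (number k R) := by
  classical
  refine ⟨fun P x => (P.1.symm x : ℕ), m, ?_, fun P x => (P.1.symm x).2, card_le_card ?_⟩
  · intro P x y h
    exact P.1.symm.injective (Fin.ext h)
  · intro X hX
    rw [mem_filter, mem_powersetCard] at hX
    rw [mem_sets]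
    refine ⟨hX.1.2, fun f hf => ?_⟩
    obtain ⟨P, hP, hi⟩ := hX.2 f hf
    exact ⟨⟨P, hP⟩, fun x hx y hy => hi x hx y hy⟩

/-- the general inequality -/
theorem main {k m n : ℕ} (hk : 2 ≤ k) (hm : k ≤ m) (hn : k ≤ n) :
    F k m k.factorial * m.descFactorial k / ((m : ℝ) ^ k - m) ≤ F k n k.factorial := by
  classical
  have hm' : (2 : ℝ) ≤ m := by exact_mod_cast le_trans hk hm
  have hpos : (0 : ℝ) < (m : ℝ) ^ k - m := by
    have : (m : ℝ) ^ 2 ≤ (m : ℝ) ^ k := pow_le_pow_right₀ (by linarith) hk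
    nlinarith
  have hd : (0 : ℝ) < m.descFactorial k := by exact_mod_cast Nat.descFactorial_pos.2 hm
  have hch : (0 : ℝ) < m.choose k := by exact_mod_cast Nat.choose_pos hm
  rw [div_le_iff₀ hpos, ← le_div_iff₀ hd]
  apply csSup_le
  · have h2 : k.factorial ≤ (univ : Finset (Equiv.Perm (Fin m))).card := by
      rw [card_univ, Fintype.card_perm, Fintype.card_fin]
      exact Nat.factorial_le hm
    obtain ⟨R, -, hR⟩ := exists_subset_card_eq h2
    exact ⟨_, R, hR, rfl⟩
  · rintro x ⟨R, hR, rfl⟩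
    have hG := Good.all hk (le_trans hk hm) (good_of_perm (k := k) R) hn
    have := Rat.le_F (by rw [Fintype.card_coe, hR]) hn hG
    rw [div_le_iff₀ hpos] at this
    rw [le_div_iff₀ hd]
    have e : (number k R : ℝ) / m.choose k * m.descFactorial k = number k R * k.factorial := by
      rw [Nat.descFactorial_eq_factorial_mul_choose]
      push_cast
      field_simp
    rw [e]
    exact this

end Pool.Agent.U445.Sh
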