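import Pool.Agent.U445.Sh.Triple

set_option autoImplicit false

/-! The upper bound: six permutations of `[n]` shatter at most `n(n-1)(2n-1)/18` triples. -/

namespace Pool.Agent.U445.Sh

open Finset

/-- sign vectors of the 3-subsets of `{0,..,5}` (outer automorphism of `S_6`), by bit masks -/
def tab : List (List ℤ) := [[], [], [], [], [], [], [], [1, 1, 1, -1, -1, -1], [], [], [], [1, -1, -1, 1, 1, -1], [], [-1, 1, -1, -1, 1, 1], [-1, -1, 1, 1, -1, 1], [], [], [], [], [-1, 1, -1, 1, -1, 1], [], [-1, -1, 1, 1, 1, -1], [1, -1, -1, -1, 1, 1], [], [], [1, -1, 1, -1, -1, 1], [-1, 1, 1, -1, 1, -1], [], [1, 1, -1, 1, -1, -1], [], [], [], [], [], [], [-1, -1, 1, -1, 1, 1], [], [1, -1, -1, 1, -1, 1], [-1, 1, -1, 1, 1, -1], [], [], [-1, 1, 1, 1, -1, -1], [1, 1, -1, -1, -1, 1], [], [1, -1, 1, -1, 1, -1], [], [], [], [], [1, 1, -1, -1, 1, -1], [1, -1, 1, 1, -1, -1], [], [-1, 1, 1, -1, -1, 1], [], [], [], [-1, -1, -1, 1, 1, 1], [], [], [], [], [], [],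 []]

/-- bit mask -/
def code (v : Fin 6 → Bool) : ℕ :=
  (v 0).toNat + 2 * (v 1).toNat + 4 * (v 2).toNat + 8 * (v 3).toNat + 16 * (v 4).toNat +
    32 * (v 5).toNat

/-- sign vector -/
def e (v : Fin 6 → Bool) (j : Fin 6) : ℤ := (tab.getD (code v) []).getD j 0

/-- size of the intersection -/
def inter (v w : Fin 6 → Bool) : ℕ :=
  (v 0 && w 0).toNat + (v 1 && w 1).toNat + (v 2 && w 2).toNat + (v 3 && w 3).toNat +
    (v 4 && w 4).toNat + (v 5 && w 5).toNat

/-- adjacency in the Johnson graph -/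
def adj (v w : Fin 6 → Bool) : Bool :=
  inter v v == 3 && inter w w == 3 && inter v w == 2

set_option maxRecDepth 100000 in
lemma key0 : ∀ b0 b1 b2 b3 b4 b5 c0 c1 c2 c3 c4 c5 : Bool,
    e ![b0, b1, b2, b3, b4, b5] 0 * e ![c0, c1, c2, c3, c4, c5] 0 +
    e ![b0, b1, b2, b3, b4, b5] 1 * e ![c0, c1, c2, c3, c4, c5] 1 +
    e ![b0, b1, b2, b3, b4, b5] 2 * e ![c0, c1, c2, c3, c4, c5] 2 +
    e ![b0, b1, b2, b3, b4, b5] 3 * e ![c0, c1, c2, c3, c4, c5] 3 +
    e ![b0, b1, b2, b3, b4, b5] 4 * e ![c0, c1, c2, c3, c4, c5] 4 +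
    e ![b0, b1, b2, b3, b4, b5] 5 * e ![c0, c1, c2, c3, c4, c5] 5 ≤
    2 * ((inter ![b0, b1, b2, b3, b4, b5] ![c0, c1, c2, c3, c4, c5] : ℤ) -
      3 * ((adj ![b0, b1, b2, b3, b4, b5] ![c0, c1, c2, c3, c4, c5]).toNat : ℤ)) := by
  decide +kernel

lemma vec (v : Fin 6 → Bool) : v = ![v 0, v 1, v 2, v 3, v 4, v 5] := by
  funext i
  fin_cases i <;> rfl

lemma key (v w : Fin 6 → Bool) :
    ∑ j, e v j * e w j ≤ 2 * ((inter v w : ℤ) - 3 * ((adj v w).toNat : ℤ)) := by
  rw [Fin.sum_univ_six, vec v, vec w]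
  exact key0 _ _ _ _ _ _ _ _ _ _ _ _

lemma inter_eq (v w : Fin 6 → Bool) : (inter v w : ℤ) = ∑ i, ((v i).toNat : ℤ) * ((w i).toNat : ℤ) := by
  rw [Fin.sum_univ_six]
  unfold inter
  have : ∀ a b : Bool, (a && b).toNat = a.toNat * b.toNat := by decide
  simp only [this]
  push_cast
  ring

/-- the inequality at one point -/
theorem local_ineq {α : Type*} (s : Finset α) (v : α → Fin 6 → Bool) :
    3 * ∑ a ∈ s, ∑ b ∈ s, ((adj (v a) (v b)).toNat : ℤ) ≤
      ∑ i, (∑ a ∈ s, ((v a i).toNat : ℤ)) ^ 2 := by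
  have h1 : ∑ i, (∑ a ∈ s, ((v a i).toNat : ℤ)) ^ 2 = ∑ a ∈ s, ∑ b ∈ s, (inter (v a) (v b) : ℤ) := by
    simp_rw [inter_eq, sq, sum_mul_sum]
    rw [sum_comm]
    refine sum_congr rfl fun a _ => ?_
    rw [sum_comm]
  have h2 : 0 ≤ ∑ a ∈ s, ∑ b ∈ s, ∑ j, e (v a) j * e (v b) j := by
    have : ∑ a ∈ s, ∑ b ∈ s, ∑ j, e (v a) j * e (v b) j = ∑ j, (∑ a ∈ s, e (v a) j) ^ 2 := by
      simp_rw [sq, sum_mul_sum]
      rw [eq_comm, sum_comm]
      refine sum_congr rfl fun a _ => ?_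
      rw [sum_comm]
    rw [this]
    exact sum_nonneg fun j _ => sq_nonneg _
  have h3 : ∑ a ∈ s, ∑ b ∈ s, ∑ j, e (v a) j * e (v b) j ≤
      ∑ a ∈ s, ∑ b ∈ s, 2 * ((inter (v a) (v b) : ℤ) - 3 * ((adj (v a) (v b)).toNat : ℤ)) :=
    sum_le_sum fun a _ => sum_le_sum fun b _ => key _ _
  have h4 : ∑ a ∈ s, ∑ b ∈ s, 2 * ((inter (v a) (v b) : ℤ) - 3 * ((adj (v a) (v b)).toNat : ℤ)) =
      2 * (∑ a ∈ s, ∑ b ∈ s, (inter (v a) (v b) : ℤ)) -
        2 * (3 * ∑ a ∈ s, ∑ b ∈ s, ((adj (v a) (v b)).toNat : ℤ)) := by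
    simp_rw [mul_sum, ← sum_sub_distrib]
    refine sum_congr rfl fun a _ => sum_congr rfl fun b _ => by ring
  rw [h1]
  linarith

/-- the six consistent patterns -/
def pats : Finset (Bool × Bool × Bool) :=
  univ.filter (fun t => ∃ x a b : Fin 3, x ≠ a ∧ x ≠ b ∧ a ≠ b ∧
    t = (decide (a < x), decide (b < x), decide (a < b)))

lemma pats_card : pats.card = 6 := by decide +kernel

/-- if all six orders of `x, a, b` occur in six orders then the types of `a` and `b` are adjacent -/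
theorem adj_of_shatters {n : ℕ} (P : Fin 6 → Equiv.Perm (Fin n)) {x a b : Fin n}
    (hxa : x ≠ a) (hxb : x ≠ b) (hab : a ≠ b)
    (h : ∀ f : Fin n → ℕ, Set.InjOn f (({x, a, b} : Finset (Fin n)) : Set (Fin n)) →
      ∃ i, ∀ y ∈ ({x, a, b} : Finset (Fin n)), ∀ z ∈ ({x, a, b} : Finset (Fin n)),
        ((P i).symm y < (P i).symm z ↔ f y < f z)) :
    adj (fun i => decide ((P i).symm a < (P i).symm x))
      (fun i => decide ((P i).symm b < (P i).symm x)) = true := by
  classical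
  let π : Fin 6 → Bool × Bool × Bool := fun i =>
    (decide ((P i).symm a < (P i).symm x), decide ((P i).symm b < (P i).symm x),
      decide ((P i).symm a < (P i).symm b))
  have hsub : pats ⊆ univ.image π := by
    intro t ht
    rw [pats, mem_filter] at ht
    obtain ⟨-, x', a', b', h1, h2, h3, rfl⟩ := ht
    obtain ⟨i, hi⟩ := h (fun y => if y = x then x' else if y = a then a' else b') (by
      intro y hy z hz hyz
      simp only [coe_insert, coe_singleton, Set.mem_insert_iff, Set.mem_singleton_iff] at hy hz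
      have h1' : (x' : ℕ) ≠ a' := fun h => h1 (Fin.ext h)
      have h2' : (x' : ℕ) ≠ b' := fun h => h2 (Fin.ext h)
      have h3' : (a' : ℕ) ≠ b' := fun h => h3 (Fin.ext h)
      rcases hy with rfl | rfl | rfl <;> rcases hz with rfl | rfl | rfl <;>
        simp_all [eq_comm])
    rw [mem_image]
    refine ⟨i, mem_univ _, ?_⟩
    have hx : x ∈ ({x, a, b} : Finset (Fin n)) := by simp
    have ha : a ∈ ({x, a, b} : Finset (Fin n)) := by simp
    have hb : b ∈ ({x, a, b} : Finset (Fin n)) := by simp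
    have e1 := hi a ha x hx
    have e2 := hi b hb x hx
    have e3 := hi a ha b hb
    simp only [if_true, if_neg hxa.symm, if_neg hxb.symm, if_neg hab.symm, Fin.val_fin_lt] at e1 e2 e3
    simp only [π, e1, e2, e3]
  have hcard : (univ.image π).card ≤ 6 := by
    refine le_trans card_image_le ?_
    simp
  have heq : pats = univ.image π := eq_of_subset_of_card_le hsub (by rw [pats_card]; exact hcard)
  have hinj : Set.InjOn π (univ : Finset (Fin 6)) := by
    rw [← card_image_iff, ← heq, pats_card]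
    simp
  have hsum : ∀ g : Bool × Bool × Bool → ℕ, ∑ i, g (π i) = ∑ t ∈ pats, g t := by
    intro g
    rw [heq, sum_image hinj]
  have hin : ∀ g g' : Fin 6 → Bool, inter g g' = ∑ i, (g i && g' i).toNat := by
    intro g g'
    rw [Fin.sum_univ_six]
    rfl
  have s1 := hsum (fun t => (t.1 && t.1).toNat)
  have s2 := hsum (fun t => (t.2.1 && t.2.1).toNat)
  have s3 := hsum (fun t => (t.1 && t.2.1).toNat)
  have c1 : ∑ t ∈ pats, (t.1 && t.1).toNat = 3 := by decide +kernel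
  have c2 : ∑ t ∈ pats, (t.2.1 && t.2.1).toNat = 3 := by decide +kernel
  have c3 : ∑ t ∈ pats, (t.1 && t.2.1).toNat = 2 := by decide +kernel
  unfold adj
  rw [hin, hin, hin]
  simp only [π] at s1 s2 s3
  rw [s1, s2, s3, c1, c2, c3]
  rfl

/-- the number of ordered triples -/
theorem six_mul_number {n : ℕ} (R : Finset (Equiv.Perm (Fin n))) (P : Fin 6 → Equiv.Perm (Fin n))
    (hP : ∀ Q ∈ R, ∃ i, P i = Q) :
    6 * (number 3 R : ℤ) ≤ ∑ x : Fin n, ∑ a : Fin n, ∑ b : Fin n,
      ((adj (fun i => decide ((P i).symm a < (P i).symm x))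
        (fun i => decide ((P i).symm b < (P i).symm x))).toNat : ℤ) := by
  classical
  let D : Finset (Fin n × Fin n × Fin n) := univ.filter (fun t => t.1 ≠ t.2.1 ∧ t.1 ≠ t.2.2 ∧
    t.2.1 ≠ t.2.2 ∧ Shatters R {t.1, t.2.1, t.2.2})
  let S := (powersetCard 3 (univ : Finset (Fin n))).filter (Shatters R)
  have h1 : (D.card : ℤ) ≤ ∑ x : Fin n, ∑ a : Fin n, ∑ b : Fin n,
      ((adj (fun i => decide ((P i).symm a < (P i).symm x))
        (fun i => decide ((P i).symm b < (P i).symm x))).toNat : ℤ) := by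
    have e : ∑ x : Fin n, ∑ a : Fin n, ∑ b : Fin n,
      ((adj (fun i => decide ((P i).symm a < (P i).symm x))
        (fun i => decide ((P i).symm b < (P i).symm x))).toNat : ℤ) =
        ∑ t : Fin n × Fin n × Fin n, ((adj (fun i => decide ((P i).symm t.2.1 < (P i).symm t.1))
        (fun i => decide ((P i).symm t.2.2 < (P i).symm t.1))).toNat : ℤ) := by
      rw [Fintype.sum_prod_type]
      refine sum_congr rfl fun x _ => ?_
      rw [Fintype.sum_prod_type]
    rw [e, card_eq_sum_ones]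
    push_cast
    rw [sum_filter]
    refine sum_le_sum fun t _ => ?_
    split_ifs with ht
    · obtain ⟨h1, h2, h3, h4⟩ := ht
      rw [adj_of_shatters P h1 h2 h3]
      · simp
      · intro f hf
        obtain ⟨Q, hQ, h5⟩ := h4 f hf
        obtain ⟨i, rfl⟩ := hP Q hQ
        exact ⟨i, h5⟩
    · exact Int.natCast_nonneg _
  refine le_trans ?_ h1
  have h2 : ∀ t ∈ D, ({t.1, t.2.1, t.2.2} : Finset (Fin n)) ∈ S := by
    intro t ht
    rw [mem_filter] at ht
    rw [mem_filter, mem_powersetCard]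
    exact ⟨⟨subset_univ _, card_eq_three.2 ⟨_, _, _, ht.2.1, ht.2.2.1, ht.2.2.2.1, rfl⟩⟩, ht.2.2.2.2⟩
  have h3 := card_eq_sum_card_fiberwise (f := fun t : Fin n × Fin n × Fin n =>
    ({t.1, t.2.1, t.2.2} : Finset (Fin n))) h2
  have h4 : ∀ X ∈ S, 6 ≤ (D.filter (fun t => ({t.1, t.2.1, t.2.2} : Finset (Fin n)) = X)).card := by
    intro X hX
    rw [mem_filter, mem_powersetCard] at hX
    obtain ⟨a, b, c, hab, hac, hbc, rfl⟩ := card_eq_three.1 hX.1.2
    have hsub : ({(a, b, c), (a, c, b), (b, a, c), (b, c, a), (c, a, b), (c, b, a)} :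
        Finset (Fin n × Fin n × Fin n)) ⊆
        D.filter (fun t => ({t.1, t.2.1, t.2.2} : Finset (Fin n)) = {a, b, c}) := by
      intro t ht
      simp only [mem_insert, mem_singleton] at ht
      have p1 : ({a, c, b} : Finset (Fin n)) = {a, b, c} := by ext; simp; tauto
      have p2 : ({b, a, c} : Finset (Fin n)) = {a, b, c} := by ext; simp; tauto
      have p3 : ({b, c, a} : Finset (Fin n)) = {a, b, c} := by ext; simp; tauto
      have p4 : ({c, a, b} : Finset (Fin n)) = {a, b, c} := by ext; simp; tauto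
      have p5 : ({c, b, a} : Finset (Fin n)) = {a, b, c} := by ext; simp; tauto
      rcases ht with rfl | rfl | rfl | rfl | rfl | rfl <;>
        simp [D, hab, hac, hbc, hab.symm, hac.symm, hbc.symm, p1, p2, p3, p4, p5, hX.2]
    refine le_trans (le_of_eq ?_) (card_le_card hsub)
    rw [card_insert_of_notMem, card_insert_of_notMem, card_insert_of_notMem, card_insert_of_notMem,
      card_insert_of_notMem, card_singleton] <;>
      simp [hab, hac, hbc, hab.symm, hac.symm, hbc.symm]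
  have h5 : 6 * S.card ≤ D.card := by
    rw [h3, mul_comm, ← smul_eq_mul, ← sum_const]
    exact sum_le_sum h4
  have h6 : number 3 R = S.card := rfl
  rw [h6]
  exact_mod_cast h5

theorem upper {n : ℕ} (R : Finset (Equiv.Perm (Fin n))) (hR : R.card = 6) :
    18 * (number 3 R : ℤ) ≤ n * (n - 1) * (2 * n - 1) := by
  classical
  have eqv : Fin 6 ≃ R := (Finset.equivFinOfCardEq hR).symm
  let P : Fin 6 → Equiv.Perm (Fin n) := fun i => (eqv i).1
  have hP : ∀ Q ∈ R, ∃ i, P i = Q := fun Q hQ => ⟨eqv.symm ⟨Q, hQ⟩, by simp [P]⟩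
  have h1 := six_mul_number R P hP
  have h2 : ∀ x : Fin n, 3 * ∑ a : Fin n, ∑ b : Fin n,
      ((adj (fun i => decide ((P i).symm a < (P i).symm x))
        (fun i => decide ((P i).symm b < (P i).symm x))).toNat : ℤ) ≤
      ∑ i, (((P i).symm x : ℕ) : ℤ) ^ 2 := by
    intro x
    refine le_trans (local_ineq univ (fun a i => decide ((P i).symm a < (P i).symm x))) ?_
    apply le_of_eq
    refine sum_congr rfl fun i _ => ?_
    congr 1
    have e1 : ∀ a : Fin n, (((decide ((P i).symm a < (P i).symm x)).toNat : ℕ) : ℤ) =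
        if (P i).symm a < (P i).symm x then 1 else 0 := by
      intro a
      by_cases h : (P i).symm a < (P i).symm x <;> simp [h]
    simp_rw [e1]
    rw [Equiv.sum_comp (P i).symm (fun y : Fin n => if y < (P i).symm x then (1 : ℤ) else 0)]
    rw [← sum_filter, sum_const, nsmul_eq_mul, mul_one]
    congr 1
    have : (univ.filter (fun y : Fin n => y < (P i).symm x)) = Iio ((P i).symm x) := by
      ext y; simp
    rw [this, Fin.card_Iio]
  have h3 : ∑ x : Fin n, ∑ i, (((P i).symm x : ℕ) : ℤ) ^ 2 = 6 * ∑ j ∈ range n, (j : ℤ) ^ 2 := by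
    rw [sum_comm]
    have : ∀ i : Fin 6, ∑ x : Fin n, (((P i).symm x : ℕ) : ℤ) ^ 2 = ∑ j ∈ range n, (j : ℤ) ^ 2 := by
      intro i
      rw [Equiv.sum_comp (P i).symm (fun y : Fin n => ((y : ℕ) : ℤ) ^ 2)]
      rw [Fin.sum_univ_eq_sum_range (fun j => (j : ℤ) ^ 2)]
    simp_rw [this]
    simp
  have h4 : ∀ m : ℕ, 6 * ∑ j ∈ range m, (j : ℤ) ^ 2 = m * (m - 1) * (2 * m - 1) := by
    intro m
    induction m with
    | zero => simp
    | succ m ih => rw [sum_range_succ, mul_add, ih]; push_cast; ring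
  have h5 : 3 * ∑ x : Fin n, ∑ a : Fin n, ∑ b : Fin n,
      ((adj (fun i => decide ((P i).symm a < (P i).symm x))
        (fun i => decide ((P i).symm b < (P i).symm x))).toNat : ℤ) ≤ n * (n - 1) * (2 * n - 1) := by
    rw [← h4, ← h3, mul_sum]
    exact sum_le_sum fun x _ => h2 x
  linarith

end Pool.Agent.U445.Sh
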